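import Pool.Agent.K1H17.SC.Stm

/-! A factor with two branch points (piece SC-3). -/

set_option autoImplicit false
set_option linter.overlappingInstances false

open Polynomial IntermediateField

namespace Pool.Agent.K1H45.SC

open Pool.Agent.K1H17.SC

section algebra

variable {L : Type} [Field L]

theorem ypow (C u D z τ G : L) (hu : u ≠ 0) (hD : D ≠ 0) (A b ε e : ℤ) (m : ℕ)
    (h1 : 2 * A = m * (2 * b + ε)) (h2 : e = A - m * b)
    (hz : z ^ m = τ * ((C * u * D ^ 2) ^ A * G)) :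
    (z * D ^ (-(2 * b + ε)) * u ^ (-b)) ^ m = τ * C ^ A * u ^ e * G := by
  have e1 : (D ^ (-(2 * b + ε))) ^ m = D ^ (-(2 * A)) := by
    rw [← zpow_natCast, ← zpow_mul, h1]; congr 1; ring
  have e2 : (u ^ (-b)) ^ m = u ^ (-(m * b)) := by
    rw [← zpow_natCast, ← zpow_mul]; congr 1; ring
  have e3 : (C * u * D ^ 2) ^ A = C ^ A * u ^ A * D ^ (2 * A) := by
    rw [mul_zpow, mul_zpow, ← zpow_natCast D 2, ← zpow_mul]; norm_num
  have e4 : u ^ e = u ^ A * u ^ (-(m * b)) := by
    rw [← zpow_add₀ hu, h2]; congr 1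
  have e5 : D ^ (2 * A) * D ^ (-(2 * A)) = 1 := by
    rw [← zpow_add₀ hD]; simp
  rw [mul_pow, mul_pow, hz, e1, e2, e3, e4]
  calc τ * (C ^ A * u ^ A * D ^ (2 * A) * G) * D ^ (-(2 * A)) * u ^ (-(m * b))
      = τ * C ^ A * (u ^ A * u ^ (-(m * b))) * G * (D ^ (2 * A) * D ^ (-(2 * A))) := by ring
    _ = _ := by rw [e5]; ring

theorem gpow (R u w G : L) (hu : u ≠ 0) (h m : ℕ) (hm : m = 2 * h)
    (hw : w ^ m = R * u ^ (h : ℤ) * G) : (w ^ 2 / u) ^ h = R * G := by
  rw [div_pow, ← pow_mul, ← hm, hw, zpow_natCast]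
  field_simp

theorem zpow' (R u Y G R0 w G0 : L) (hu : u ≠ 0) (m m0 : ℕ) (e ε h : ℤ)
    (h1 : 2 * e = m * ε) (h2 : 2 * h = m0)
    (hY : Y ^ m = R * u ^ e * G) (hw : w ^ m0 = R0 * u ^ h * G0) :
    (Y / w ^ ε) ^ (m * m0) = R ^ m0 * R0 ^ (-(ε * m)) * (G ^ m0 * G0 ^ (-(ε * m))) := by
  have e1 : (w ^ ε) ^ (m * m0) = (w ^ m0) ^ (ε * m) := by
    rw [← zpow_natCast, ← zpow_mul, ← zpow_natCast w m0, ← zpow_mul]
    congr 1; push_cast; ring
  have e2 : (u ^ e) ^ m0 * (u ^ h) ^ (-(ε * m)) = 1 := by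
    rw [← zpow_natCast, ← zpow_mul, ← zpow_mul, ← zpow_add₀ hu]
    have : e * (m0 : ℤ) + h * -(ε * m) = 0 := by
      rw [← h2]; linear_combination h * h1
    rw [this, zpow_zero]
  rw [div_pow, e1, div_eq_mul_inv, ← zpow_neg, pow_mul, hY, hw, mul_pow, mul_pow, mul_zpow,
    mul_zpow]
  calc R ^ m0 * (u ^ e) ^ m0 * G ^ m0 * (R0 ^ (-(ε * m)) * (u ^ h) ^ (-(ε * m)) * G0 ^ (-(ε * m)))
      = R ^ m0 * R0 ^ (-(ε * m)) * (G ^ m0 * G0 ^ (-(ε * m))) *
        ((u ^ e) ^ m0 * (u ^ h) ^ (-(ε * m))) := by ring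
    _ = _ := by rw [e2, mul_one]

end algebra

variable {k L : Type} [Field k] [Field L] [Algebra k L] {ι : Type}
  {M E : IntermediateField k L} {T : Finset ι} {s : ℕ} {x : ι → L} {f : ι → k[X]}
  {A : Fin s → ι → ℤ} {m : Fin s → ℕ} {τ z : Fin s → L}

theorem tr (H : IsSC M E T x f A m τ z) {i : ι} (hi : i ∈ T) : Transcendental k (x i) := by
  have h : Transcendental M (x i) := H.indep.transcendental ⟨i, hi⟩
  intro ha
  exact h (ha.tower_top M)

theorem fne (H : IsSC M E T x f A m τ z) {i : ι} (hi : i ∈ T) : aeval (x i) (f i) ≠ 0 := by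
  intro h
  have h1 : f i ≠ 0 := (H.sqf i hi).ne_zero
  exact tr H hi ⟨f i, h1, h⟩

/-- a squarefree polynomial of degree two over an algebraically closed field -/
theorem two_roots [IsAlgClosed k] (g : k[X]) (hg : Squarefree g) (hd : g.natDegree = 2) :
    ∃ c p q : k, c ≠ 0 ∧ p ≠ q ∧ g = C c * (X - C p) * (X - C q) := by
  have h0 : g ≠ 0 := hg.ne_zero
  have hsp := IsAlgClosed.splits g
  have hc : Multiset.card g.roots = 2 := by
    rw [← hd]; exact (splits_iff_card_roots.mp hsp)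
  obtain ⟨p, q, hpq⟩ := Multiset.card_eq_two.mp hc
  have hp := hsp.eq_prod_roots
  rw [hpq] at hp
  simp only [Multiset.insert_eq_cons, Multiset.map_cons, Multiset.map_singleton,
    Multiset.prod_cons, Multiset.prod_singleton] at hp
  refine ⟨g.leadingCoeff, p, q, leadingCoeff_ne_zero.mpr h0, ?_, by rw [mul_assoc]; exact hp⟩
  rintro rfl
  have : (X - C p) * (X - C p) ∣ g := ⟨C g.leadingCoeff, by rw [mul_comm]; exact hp⟩
  have := hg _ this
  have h2 := natDegree_eq_zero_of_isUnit this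
  rw [natDegree_X_sub_C] at h2
  omega

open Classical in
theorem t_TWO (hT : S_TRI) (hU : S_UNB) : S_TWO := by
  intro k L _ _ _ _ _ ι M E T s x f A m τ z H a ha hd
  by_cases hall : ∀ j, (m j : ℤ) ∣ A j a
  · exact hU k L ι M E T s x f A m τ z H a ha hall
  push Not at hall
  obtain ⟨j0, hj0⟩ := hall
  obtain ⟨c, p, q, hc, hpq, hf⟩ := two_roots (f a) (H.sqf a ha) hd
  have hex : ∀ j, ∃ b ε : ℤ, (ε = 0 ∨ ε = 1) ∧ 2 * A j a = m j * (2 * b + ε) := by
    intro j
    obtain ⟨r, hr⟩ := H.dvd j a ha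
    rw [hd] at hr
    refine ⟨r / 2, r % 2, by omega, ?_⟩
    have : 2 * (r / 2) + r % 2 = r := by omega
    rw [this]; push_cast at hr; linarith
  choose b ε hε hb using hex
  have hε0 : ε j0 = 1 := by
    rcases hε j0 with h | h
    · exfalso; apply hj0; refine ⟨b j0, ?_⟩; have := hb j0; rw [h] at this; linarith
    · exact h
  -- elements
  have htr : Transcendental k (x a) := tr H ha
  have hne : ∀ r : k, x a - algebraMap k L r ≠ 0 := by
    intro r hr
    apply htr
    rw [sub_eq_zero.mp hr]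
    exact isAlgebraic_algebraMap r
  obtain ⟨P, hP⟩ : ∃ P, P = algebraMap k L p := ⟨_, rfl⟩
  obtain ⟨Q, hQ⟩ : ∃ Q, Q = algebraMap k L q := ⟨_, rfl⟩
  obtain ⟨C₀, hC⟩ : ∃ C₀, C₀ = algebraMap k L c := ⟨_, rfl⟩
  obtain ⟨D, hD⟩ : ∃ D, D = x a - Q := ⟨_, rfl⟩
  obtain ⟨u, hu⟩ : ∃ u, u = (x a - P) / D := ⟨_, rfl⟩
  have hC0 : C₀ ≠ 0 := by rw [hC]; simpa using hc
  have hPQ : P ≠ Q := by
    rw [hP, hQ]; exact fun h => hpq ((algebraMap k L).injective h)
  have hD0 : D ≠ 0 := by rw [hD, hQ]; exact hne q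
  have hN0 : x a - P ≠ 0 := by rw [hP]; exact hne p
  have hu0 : u ≠ 0 := by rw [hu]; exact div_ne_zero hN0 hD0
  have hF : aeval (x a) (f a) = C₀ * u * D ^ 2 := by
    rw [hf]
    simp only [map_mul, map_sub, aeval_X, aeval_C]
    rw [← hC, ← hP, ← hQ, ← hD, hu]
    field_simp
  obtain ⟨G, hG⟩ : ∃ G : Fin s → L, G = fun j => ∏ i ∈ T.erase a, aeval (x i) (f i) ^ A j i :=
    ⟨_, rfl⟩
  have hG0 : ∀ j, G j ≠ 0 := by
    intro j
    rw [hG]
    exact Finset.prod_ne_zero_iff.mpr fun i hi => zpow_ne_zero _ (fne H (Finset.mem_of_mem_erase hi))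
  have hroot : ∀ j, z j ^ m j = τ j * ((C₀ * u * D ^ 2) ^ A j a * G j) := by
    intro j
    rw [H.root j, ← Finset.mul_prod_erase T _ ha, hF, hG]
  obtain ⟨e, he⟩ : ∃ e : Fin s → ℤ, e = fun j => A j a - m j * b j := ⟨_, rfl⟩
  have he2 : ∀ j, 2 * e j = m j * ε j := by
    intro j; rw [he]; have := hb j; linear_combination this
  obtain ⟨Y, hYd⟩ : ∃ Y : Fin s → L, Y = fun j => z j * D ^ (-(2 * b j + ε j)) * u ^ (-b j) :=
    ⟨_, rfl⟩
  have hY : ∀ j, Y j ^ m j = τ j * C₀ ^ A j a * u ^ e j * G j := by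
    intro j
    rw [hYd]
    exact ypow C₀ u D (z j) (τ j) (G j) hu0 hD0 (A j a) (b j) (ε j) (e j) (m j) (hb j)
      (by rw [he]) (hroot j)
  have hm0 := H.pos j0
  have he0 : 2 * e j0 = m j0 := by rw [he2 j0, hε0, mul_one]
  obtain ⟨h, hh⟩ : ∃ h : ℕ, (h : ℤ) = e j0 := ⟨(e j0).toNat, by omega⟩
  have hmh : m j0 = 2 * h := by omega
  have hh0 : 0 < h := by omega
  obtain ⟨w, hw⟩ : ∃ w, w = Y j0 := ⟨_, rfl⟩
  have hw1 : w ^ m j0 = τ j0 * C₀ ^ A j0 a * u ^ (h : ℤ) * G j0 := by rw [hw, hY j0, hh]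
  have hw0 : w ≠ 0 := by
    intro h0
    rw [h0, zero_pow hm0.ne'] at hw1
    exact (mul_ne_zero (mul_ne_zero (mul_ne_zero (H.ne0 j0) (zpow_ne_zero _ hC0))
      (zpow_ne_zero _ hu0)) (hG0 j0)) hw1.symm
  -- the new data
  obtain ⟨m', hm'⟩ : ∃ m' : Fin s → ℕ, m' = fun j => if j = j0 then h else m j * m j0 := ⟨_, rfl⟩
  obtain ⟨A', hA'⟩ : ∃ A' : Fin s → ι → ℤ, A' = fun j i =>
    if j = j0 then A j0 i else m j0 * A j i - ε j * m j * A j0 i := ⟨_, rfl⟩
  obtain ⟨τ', hτ'⟩ : ∃ τ' : Fin s → L, τ' = fun j => if j = j0 then τ j0 * C₀ ^ A j0 a else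
    (τ j * C₀ ^ A j a) ^ m j0 * (τ j0 * C₀ ^ A j0 a) ^ (-(ε j * m j)) := ⟨_, rfl⟩
  obtain ⟨z', hz'⟩ : ∃ z' : Fin s → L, z' = fun j => if j = j0 then w ^ 2 / u else
    Y j / w ^ ε j := ⟨_, rfl⟩
  obtain ⟨E', hE'⟩ : ∃ E' : IntermediateField k L, E' = M ⊔ adjoin k (x '' (T.erase a)) ⊔
    adjoin k (Set.range z') := ⟨_, rfl⟩
  have hCM : C₀ ∈ M := by rw [hC]; exact M.algebraMap_mem c
  have hSC : IsSC M E' (T.erase a) x f A' m' τ' z' := by
    refine ⟨?_, fun i hi => H.deg i (Finset.mem_of_mem_erase hi),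
      fun i hi => H.sqf i (Finset.mem_of_mem_erase hi), ?_, ?_, ?_, ?_, ?_, hE'.symm⟩
    · exact H.indep.comp (fun i : (T.erase a : Finset ι) =>
        (⟨i.1, Finset.mem_of_mem_erase i.2⟩ : (T : Finset ι))) (by
          intro i i' hi; apply Subtype.ext; simpa using hi)
    · intro j
      rw [hm']; simp only
      split_ifs
      · exact hh0
      · exact Nat.mul_pos (H.pos j) hm0
    · intro j
      rw [hτ']; simp only
      split_ifs
      · exact mul_mem (H.mem j0) (zpow_mem hCM _)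
      · exact mul_mem (pow_mem (mul_mem (H.mem j) (zpow_mem hCM _)) _)
          (zpow_mem (mul_mem (H.mem j0) (zpow_mem hCM _)) _)
    · intro j
      rw [hτ']; simp only
      split_ifs
      · exact mul_ne_zero (H.ne0 j0) (zpow_ne_zero _ hC0)
      · exact mul_ne_zero (pow_ne_zero _ (mul_ne_zero (H.ne0 j) (zpow_ne_zero _ hC0)))
          (zpow_ne_zero _ (mul_ne_zero (H.ne0 j0) (zpow_ne_zero _ hC0)))
    · intro j
      rw [hz', hm', hτ', hA']; simp only
      split_ifs with hj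
      · rw [gpow (τ j0 * C₀ ^ A j0 a) u w (G j0) hu0 h (m j0) hmh hw1, hG]
      · rw [zpow' (τ j * C₀ ^ A j a) u (Y j) (G j) (τ j0 * C₀ ^ A j0 a) w (G j0) hu0 (m j) (m j0)
          (e j) (ε j) h (he2 j) (by rw [hh]; exact he0) (hY j) hw1]
        congr 1
        rw [hG]; simp only
        rw [← Finset.prod_pow, ← Finset.prod_zpow, ← Finset.prod_mul_distrib]
        refine Finset.prod_congr rfl fun i hi => ?_
        have h1 := fne H (Finset.mem_of_mem_erase hi)
        rw [← zpow_natCast, ← zpow_mul, ← zpow_mul, ← zpow_add₀ h1]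
        congr 1; ring
    · intro j i hi
      rw [hm', hA']; simp only
      have h1 := H.dvd j0 i (Finset.mem_of_mem_erase hi)
      have h2 := H.dvd j i (Finset.mem_of_mem_erase hi)
      split_ifs with hj
      · exact dvd_trans ⟨2, by rw [hmh]; push_cast; ring⟩ h1
      · obtain ⟨r, hr⟩ := h1
        obtain ⟨r', hr'⟩ := h2
        refine ⟨r' - ε j * r, ?_⟩
        push_cast
        linear_combination (m j0 : ℤ) * hr' - ε j * m j * hr
  -- generation
  have hgen : E' ⊔ adjoin k (Set.range ![w]) = E := by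
    have hME : M ≤ E := by rw [← H.gen]; exact le_sup_left.trans le_sup_left
    have hxE : ∀ i ∈ T, x i ∈ E := by
      intro i hi
      rw [← H.gen]
      exact (le_sup_right.trans le_sup_left : adjoin k (x '' T) ≤ _)
        (subset_adjoin _ _ ⟨i, hi, rfl⟩)
    have hzE : ∀ j, z j ∈ E := by
      intro j
      rw [← H.gen]
      exact (le_sup_right : adjoin k (Set.range z) ≤ _) (subset_adjoin _ _ ⟨j, rfl⟩)
    have hPE : ∀ F : IntermediateField k L, P ∈ F := fun F => by rw [hP]; exact F.algebraMap_mem p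
    have hQE : ∀ F : IntermediateField k L, Q ∈ F := fun F => by rw [hQ]; exact F.algebraMap_mem q
    have hDE : D ∈ E := by rw [hD]; exact sub_mem (hxE a ha) (hQE E)
    have huE : u ∈ E := by rw [hu]; exact div_mem (sub_mem (hxE a ha) (hPE E)) hDE
    have hYE : ∀ j, Y j ∈ E := by
      intro j; rw [hYd]; exact mul_mem (mul_mem (hzE j) (zpow_mem hDE _)) (zpow_mem huE _)
    have hwE : w ∈ E := by rw [hw]; exact hYE j0
    apply le_antisymm
    · rw [hE']
      refine sup_le (sup_le (sup_le hME ?_) ?_) ?_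
      · rw [adjoin_le_iff]
        rintro _ ⟨i, hi, rfl⟩
        exact hxE i (Finset.mem_of_mem_erase hi)
      · rw [adjoin_le_iff]
        rintro _ ⟨j, rfl⟩
        rw [hz']; simp only
        split_ifs
        · exact div_mem (pow_mem hwE _) huE
        · exact div_mem (hYE j) (zpow_mem hwE _)
      · rw [adjoin_le_iff]
        rintro _ ⟨j, rfl⟩
        fin_cases j
        exact hwE
    · obtain ⟨S, hS⟩ : ∃ S, S = E' ⊔ adjoin k (Set.range ![w]) := ⟨_, rfl⟩
      rw [← hS]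
      have hMS : M ≤ S := by
        rw [hS, hE']; exact (le_sup_left.trans le_sup_left).trans le_sup_left
      have hz'S : ∀ j, z' j ∈ S := by
        intro j
        rw [hS, hE']
        exact (le_sup_right.trans le_sup_left : adjoin k (Set.range z') ≤ _)
          (subset_adjoin _ _ ⟨j, rfl⟩)
      have hwS : w ∈ S := by
        rw [hS]
        exact (le_sup_right : adjoin k (Set.range ![w]) ≤ _) (subset_adjoin _ _ ⟨0, rfl⟩)
      have huS : u ∈ S := by
        have h1 := hz'S j0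
        rw [hz'] at h1; simp only [if_true] at h1
        have h2 : u = w ^ 2 / (w ^ 2 / u) := by field_simp
        rw [h2]; exact div_mem (pow_mem hwS _) h1
      have hu1 : u - 1 ≠ 0 := by
        rw [hu, hD]
        intro h1
        have h2 : (x a - P) / (x a - Q) = 1 := by linear_combination h1
        rw [div_eq_one_iff_eq (by rw [← hD]; exact hD0)] at h2
        exact hPQ (by linear_combination -h2)
      have hxS : x a ∈ S := by
        have h1 : x a = (Q * u - P) / (u - 1) := by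
          rw [eq_div_iff hu1, hu]
          field_simp
          rw [hD]; ring
        rw [h1]
        exact div_mem (sub_mem (mul_mem (hQE S) huS) (hPE S)) (sub_mem huS (one_mem S))
      have hDS : D ∈ S := by rw [hD]; exact sub_mem hxS (hQE S)
      have hYS : ∀ j, Y j ∈ S := by
        intro j
        by_cases hj : j = j0
        · rw [hj, ← hw]; exact hwS
        · have h1 := hz'S j
          rw [hz'] at h1; simp only [if_neg hj] at h1
          have h2 : Y j = Y j / w ^ ε j * w ^ ε j := by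
            rw [div_mul_cancel₀ _ (zpow_ne_zero _ hw0)]
          rw [h2]; exact mul_mem h1 (zpow_mem hwS _)
      rw [← H.gen]
      refine sup_le (sup_le hMS ?_) ?_
      · rw [adjoin_le_iff]
        rintro _ ⟨i, hi, rfl⟩
        by_cases hia : i = a
        · rw [hia]; exact hxS
        · rw [hS, hE']
          exact ((le_sup_right.trans le_sup_left).trans le_sup_left :
            adjoin k (x '' (T.erase a)) ≤ _)
            (subset_adjoin _ _ ⟨i, Finset.mem_erase.mpr ⟨hia, hi⟩, rfl⟩)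
      · rw [adjoin_le_iff]
        rintro _ ⟨j, rfl⟩
        have h1 : z j = Y j * D ^ (2 * b j + ε j) * u ^ b j := by
          rw [hYd]; simp only
          rw [zpow_neg, zpow_neg]
          have h3 := zpow_ne_zero (2 * b j + ε j) hD0
          have h4 := zpow_ne_zero (b j) hu0
          field_simp
        rw [h1]
        exact mul_mem (mul_mem (hYS j) (zpow_mem hDS _)) (zpow_mem huS _)
  have hcard : (T.erase a).card + 1 = T.card := Finset.card_erase_add_one ha
  refine ⟨T.erase a, 1, A', m', τ', z', E', ![w], Finset.erase_subset _ _, hcard, le_refl _, hSC,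
    hgen, ?_⟩
  exact hT k L ι M E E' T (T.erase a) s s 1 x f A m τ z A' m' τ' z' ![w] H hSC
    (Finset.erase_subset _ _) hcard hgen

end Pool.Agent.K1H45.SC
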